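import Mathlib
import Pool.Agent.H57.Domatic
import Pool.Graph.R_pool_sql_team_seeded_620a6dc7.Results.MP_71830d_co.Separation
import Pool.Graph.R_pool_sql_team_seeded_620a6dc7.Results.MP_71830d_co.SemiSatThree

/-!
# Saturation and semi-saturation of the square in the hypercube separate asymptotically

`s-sat(Q_n, Q_2) / 2 ^ n` tends to `3`, while `sat(Q_n, Q_2) ≥ 3.1 * 2 ^ n` for all large `n`. So
`liminf sat(Q_n, Q_2) / 2 ^ n > limsup s-sat(Q_n, Q_2) / 2 ^ n`: the answer to Q2 is yes.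

Upper bound. Let `m + m'` be `n` with `m`, `m'` equal up to one. By the module `Domatic` there are
codes `C ⊆ {0,1}^m`, `C' ⊆ {0,1}^{m'}` with covering radius at most one and
density `(1 + o(1)) / m` (a theorem of Kabatyanskii and Panchenko, proved there in a colouring form).
All edges of `Q_n` which meet `(C × Q_{m'}) ∪ (Q_m × C')` form a semi-saturated graph with
`(3 + o(1)) 2 ^ n` edges.

The lower bounds `(3 - o(1)) 2 ^ n` for `s-sat` and `3.1 * 2 ^ n` for `sat` are the two theorems of an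
earlier run for Q1 (imported).
-/

set_option autoImplicit false

open Finset Filter Topology

namespace Pool.Agent.Results.MP_71830d_co.LimitAndSeparation

/-- The hypercube graph `Q_n` on `{0,1}^n`: two vertices are adjacent exactly when they differ in
one coordinate. -/
def Q (n : ℕ) : SimpleGraph (Fin n → Bool) where
  Adj x y := hammingDist x y = 1
  symm := ⟨fun x y h => by rw [hammingDist_comm]; exact h⟩
  loopless := ⟨fun x h => by simp at h⟩

/-- `G` is a `(Q_n, Q_2)`-semi-saturated graph: a subgraph of `Q_n` such that for every edge `xy` of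
`Q_n` which is not in `G` there is a 4-cycle `x y z w` whose edges other than `xy` are in `G`. -/
def SemiSat {n : ℕ} (G : SimpleGraph (Fin n → Bool)) : Prop :=
  G ≤ Q n ∧ ∀ x y, (Q n).Adj x y → ¬ G.Adj x y →
    ∃ z w, x ≠ z ∧ y ≠ w ∧ G.Adj y z ∧ G.Adj z w ∧ G.Adj w x

/-- The number `s-sat(Q_n, Q_2)`: the least number of edges of a `(Q_n, Q_2)`-semi-saturated graph. -/
noncomputable def sSat (n : ℕ) : ℕ :=
  sInf {m : ℕ | ∃ G : SimpleGraph (Fin n → Bool), SemiSat G ∧ G.edgeSet.ncard = m}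

/-- `H` contains a 4-cycle (a copy of `Q_2`). -/
def HasC4 {n : ℕ} (H : SimpleGraph (Fin n → Bool)) : Prop :=
  ∃ x y z w, x ≠ z ∧ y ≠ w ∧ H.Adj x y ∧ H.Adj y z ∧ H.Adj z w ∧ H.Adj w x

/-- `G` is `(Q_n, Q_2)`-saturated: a subgraph of `Q_n` without 4-cycle such that the addition of any
edge of `Q_n` which is not in `G` creates a 4-cycle. -/
def Sat {n : ℕ} (G : SimpleGraph (Fin n → Bool)) : Prop :=
  G ≤ Q n ∧ ¬ HasC4 G ∧ ∀ x y, (Q n).Adj x y → ¬ G.Adj x y → HasC4 (G ⊔ SimpleGraph.edge x y)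

/-- The number `sat(Q_n, Q_2)`: the least number of edges of a `(Q_n, Q_2)`-saturated graph. -/
noncomputable def satNum (n : ℕ) : ℕ :=
  sInf {m : ℕ | ∃ G : SimpleGraph (Fin n → Bool), Sat G ∧ G.edgeSet.ncard = m}

open Pool.Agent.H57.Domatic

open Pool.Agent.Results.MP_71830d_co.Separation (flp flp_flp flp_self flp_of_ne flp_comm flp_adj
  adj_flp flp_inj sum_flip deg sum_deg)

lemma Q_eq (n : ℕ) : Q n = Separation.Q n := rfl

lemma SemiSat_iff {n : ℕ} (G : SimpleGraph (Fin n → Bool)) :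
    SemiSat G ↔ Separation.SemiSat G := Iff.rfl

lemma sSat_eq (n : ℕ) : sSat n = Separation.sSat n := rfl

lemma sSat_eq' (n : ℕ) : sSat n = SemiSatThree.sSat n := rfl

lemma satNum_eq (n : ℕ) : satNum n = Separation.satNum n := rfl

/-- a class of a colouring has at most the average size -/
lemma exists_class {n k : ℕ} (hk : 0 < k) (f : (Fin n → Bool) → Fin k) :
    ∃ c : Fin k, k * (univ.filter fun v => f v = c).card ≤ 2 ^ n := by
  by_contra hcon
  push Not at hcon
  have h1 := Finset.card_eq_sum_card_fiberwise (f := f) (s := univ) (t := univ)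
    (fun _ _ => Finset.mem_coe.2 (Finset.mem_univ _))
  have h2 : (univ : Finset (Fin n → Bool)).card = 2 ^ n := by simp
  have h3 : ∑ c : Fin k, 2 ^ n < ∑ c : Fin k, k * (univ.filter fun v => f v = c).card := by
    apply Finset.sum_lt_sum_of_nonempty
    · haveI : NeZero k := ⟨hk.ne'⟩
      exact ⟨0, Finset.mem_univ _⟩
    · intro c _
      exact hcon c
  rw [← Finset.mul_sum, ← h1, h2] at h3
  simp at h3

/-- degree count of the edges which meet a set that is invariant under the flips with `¬ P` -/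
lemma count {n : ℕ} (A : Finset (Fin n → Bool)) (P : Fin n → Prop) [DecidablePred P]
    (hA : ∀ v i, ¬ P i → (flp v i ∈ A ↔ v ∈ A)) :
    ∑ v : Fin n → Bool, (univ.filter fun i => v ∈ A ∨ flp v i ∈ A).card ≤
      A.card * (2 * (univ.filter fun i => P i).card + (univ.filter fun i => ¬ P i).card) := by
  classical
  have h1 : ∑ v : Fin n → Bool, (univ.filter fun i => v ∈ A ∨ flp v i ∈ A).card =
      ∑ i : Fin n, ∑ v : Fin n → Bool, if (v ∈ A ∨ flp v i ∈ A) then 1 else 0 := by
    rw [Finset.sum_comm]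
    apply Finset.sum_congr rfl
    intro v _
    rw [Finset.card_filter]
  rw [h1]
  have h0 : ∑ v : Fin n → Bool, (if v ∈ A then 1 else 0) = A.card := by
    rw [← Finset.card_filter]
    congr 1
    ext v; simp
  have h2 : ∀ i : Fin n, ∑ v : Fin n → Bool, (if (v ∈ A ∨ flp v i ∈ A) then 1 else 0) ≤
      A.card * (if P i then 2 else 1) := by
    intro i
    by_cases hi : P i
    · rw [if_pos hi]
      calc ∑ v : Fin n → Bool, (if (v ∈ A ∨ flp v i ∈ A) then 1 else 0)
          ≤ ∑ v : Fin n → Bool, ((if v ∈ A then 1 else 0) + (if flp v i ∈ A then 1 else 0)) := by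
            apply Finset.sum_le_sum
            intro v _
            by_cases h3 : v ∈ A <;> by_cases h4 : flp v i ∈ A <;> simp [h3, h4]
        _ = A.card * 2 := by
            rw [Finset.sum_add_distrib, sum_flip (f := flp) flp_flp i
              (fun v => if v ∈ A then 1 else 0), h0]
            ring
    · rw [if_neg hi, mul_one, ← h0]
      apply Finset.sum_le_sum
      intro v _
      have h3 := hA v i hi
      by_cases h4 : v ∈ A
      · simp [h4]
      · have h5 : flp v i ∉ A := fun h => h4 (h3.1 h)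
        simp [h4, h5]
  refine (Finset.sum_le_sum (fun i _ => h2 i)).trans ?_
  rw [← Finset.mul_sum]
  apply Nat.mul_le_mul_left
  have h5 : ∀ i : Fin n, (if P i then 2 else 1) =
      2 * (if P i then 1 else 0) + (if ¬ P i then 1 else 0) := by
    intro i
    by_cases hi : P i <;> simp [hi]
  simp only [h5]
  rw [Finset.sum_add_distrib, ← Finset.mul_sum, Finset.card_filter, Finset.card_filter]

/-- The construction. -/
lemma construct {m m' k k' : ℕ} (hk : 0 < k) (hk' : 0 < k') (h : D m k) (h' : D m' k') :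
    ∃ G : SimpleGraph (Fin (m + m') → Bool), SemiSat G ∧
      2 * (G.edgeSet.ncard : ℝ) ≤
        2 ^ (m + m') * ((2 * m + m') / k + (2 * m' + m) / k') := by
  classical
  obtain ⟨f, hf⟩ := h
  obtain ⟨f', hf'⟩ := h'
  set n := m + m' with hn
  let e : Fin m ⊕ Fin m' ≃ Fin n := finSumFinEquiv
  let F : (Fin n → Bool) → Fin k := fun x => f (fun i => x (e (Sum.inl i)))
  let F' : (Fin n → Bool) → Fin k' := fun x => f' (fun i => x (e (Sum.inr i)))
  obtain ⟨c, hc⟩ := exists_class hk F
  obtain ⟨c', hc'⟩ := exists_class hk' F'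
  let P : Fin n → Prop := fun i => ∃ j, i = e (Sum.inl j)
  -- elementary facts
  have hFl : ∀ x j, F (flp x (e (Sum.inl j))) = f (fl (fun i => x (e (Sum.inl i))) j) := by
    intro x j
    simp only [F]
    congr 1
    funext i
    by_cases hij : i = j
    · subst hij; rw [flp_self, fl_self]
    · rw [flp_of_ne, fl_of_ne _ hij]
      intro h
      exact hij (Sum.inl_injective (e.injective h))
  have hFr : ∀ x j, F (flp x (e (Sum.inr j))) = F x := by
    intro x j
    simp only [F]
    congr 1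
    funext i
    rw [flp_of_ne]
    intro h
    have := e.injective h
    simp at this
  have hFr' : ∀ x j, F' (flp x (e (Sum.inr j))) = f' (fl (fun i => x (e (Sum.inr i))) j) := by
    intro x j
    simp only [F']
    congr 1
    funext i
    by_cases hij : i = j
    · subst hij; rw [flp_self, fl_self]
    · rw [flp_of_ne, fl_of_ne _ hij]
      intro h
      exact hij (Sum.inr_injective (e.injective h))
  have hFl' : ∀ x j, F' (flp x (e (Sum.inl j))) = F' x := by
    intro x j
    simp only [F']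
    congr 1
    funext i
    rw [flp_of_ne]
    intro h
    have := e.injective h
    simp at this
  let A : Finset (Fin n → Bool) := univ.filter fun v => F v = c
  let A' : Finset (Fin n → Bool) := univ.filter fun v => F' v = c'
  have hA : ∀ v, v ∈ A ↔ F v = c := fun v => by simp [A]
  have hA' : ∀ v, v ∈ A' ↔ F' v = c' := fun v => by simp [A']
  let G : SimpleGraph (Fin n → Bool) :=
    { Adj := fun u v => (Separation.Q n).Adj u v ∧ ((u ∈ A ∨ v ∈ A) ∨ (u ∈ A' ∨ v ∈ A'))
      symm := ⟨fun u v h => ⟨h.1.symm, h.2.imp Or.symm Or.symm⟩⟩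
      loopless := ⟨fun u h => (Separation.Q n).loopless.irrefl u h.1⟩ }
  have hGQ : G ≤ Separation.Q n := fun u v h => h.1
  refine ⟨G, ⟨hGQ, ?_⟩, ?_⟩
  · intro x y hxy hnot
    obtain ⟨i, rfl⟩ := adj_flp hxy
    have hx : x ∉ A := fun h => hnot ⟨hxy, Or.inl (Or.inl h)⟩
    have hx' : x ∉ A' := fun h => hnot ⟨hxy, Or.inr (Or.inl h)⟩
    obtain ⟨j, hij, hj⟩ : ∃ j, i ≠ j ∧ ((flp x j ∈ A ∧ flp (flp x i) j ∈ A) ∨
        (flp x j ∈ A' ∧ flp (flp x i) j ∈ A')) := by
      obtain ⟨s, rfl⟩ := e.surjective i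
      rcases s with a | a
      · -- a direction of the other part
        rw [hA'] at hx'
        obtain ⟨b, hb⟩ := hf' (fun i => x (e (Sum.inr i))) c' (fun h => hx' h.symm)
        refine ⟨e (Sum.inr b), fun h => by simpa using e.injective h, Or.inr ⟨?_, ?_⟩⟩
        · rw [hA', hFr', hb]
        · rw [hA', flp_comm, hFl', hFr', hb]
      · rw [hA] at hx
        obtain ⟨b, hb⟩ := hf (fun i => x (e (Sum.inl i))) c (fun h => hx h.symm)
        refine ⟨e (Sum.inl b), fun h => by simpa using e.injective h, Or.inl ⟨?_, ?_⟩⟩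
        · rw [hA, hFl, hb]
        · rw [hA, flp_comm, hFr, hFl, hb]
    refine ⟨flp (flp x i) j, flp x j, ?_, ?_, ?_, ?_, ?_⟩
    · intro hc
      have h1 := congrFun hc i
      rw [flp_of_ne _ hij, flp_self] at h1
      revert h1
      cases x i <;> simp
    · intro hc
      exact hij (flp_inj x hc)
    · refine ⟨flp_adj _ _, ?_⟩
      rcases hj with hj | hj
      · exact Or.inl (Or.inr hj.2)
      · exact Or.inr (Or.inr hj.2)
    · refine ⟨?_, ?_⟩
      · rw [flp_comm]
        exact (flp_adj _ _).symm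
      · rcases hj with hj | hj
        · exact Or.inl (Or.inl hj.2)
        · exact Or.inr (Or.inl hj.2)
    · refine ⟨(flp_adj _ _).symm, ?_⟩
      rcases hj with hj | hj
      · exact Or.inl (Or.inl hj.1)
      · exact Or.inr (Or.inl hj.1)
  · have hsum := sum_deg hGQ
    have hPe : ∀ j, P (e (Sum.inl j)) := fun j => ⟨j, rfl⟩
    have hPe' : ∀ j, ¬ P (e (Sum.inr j)) := by
      rintro j ⟨i, hi⟩
      have := e.injective hi
      simp at this
    have hcP : (univ.filter fun i => P i).card = m := by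
      have : (univ.filter fun i => P i) = univ.image (fun j : Fin m => e (Sum.inl j)) := by
        ext i
        simp only [Finset.mem_filter, Finset.mem_univ, true_and, Finset.mem_image]
        constructor
        · rintro ⟨j, rfl⟩; exact ⟨j, rfl⟩
        · rintro ⟨j, rfl⟩; exact ⟨j, rfl⟩
      rw [this, Finset.card_image_of_injective]
      · simp
      · intro a b hab
        exact Sum.inl_injective (e.injective hab)
    have hcP' : (univ.filter fun i => ¬ P i).card = m' := by
      have h1 := Finset.card_filter_add_card_filter_not (s := (univ : Finset (Fin n))) P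
      rw [hcP, Finset.card_univ, Fintype.card_fin] at h1
      omega
    have hcPP' : (univ.filter fun i => ¬ ¬ P i).card = m := by
      simpa only [not_not] using hcP
    have hdeg : ∀ v, deg (fun u i => G.Adj u (flp u i)) v ≤
        (univ.filter fun i => v ∈ A ∨ flp v i ∈ A).card +
          (univ.filter fun i => v ∈ A' ∨ flp v i ∈ A').card := by
      intro v
      unfold deg
      refine le_trans (Finset.card_le_card (t := (univ.filter fun i => v ∈ A ∨ flp v i ∈ A) ∪
        (univ.filter fun i => v ∈ A' ∨ flp v i ∈ A')) ?_) (Finset.card_union_le _ _)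
      intro i hi
      have hi2 : G.Adj v (flp v i) := by
        simp only [Finset.mem_filter, Finset.mem_univ, true_and] at hi
        exact hi
      simp only [Finset.mem_union, Finset.mem_filter, Finset.mem_univ, true_and]
      exact hi2.2
    have h7 := Finset.sum_le_sum (s := univ) (fun v _ => hdeg v)
    rw [hsum, Finset.sum_add_distrib] at h7
    have h8 := count A P (by
      intro v i hi
      obtain ⟨s, rfl⟩ := e.surjective i
      rcases s with a | a
      · exact absurd (hPe a) hi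
      · rw [hA, hA, hFr])
    have h9 := count A' (fun i => ¬ P i) (by
      intro v i hi
      obtain ⟨s, rfl⟩ := e.surjective i
      rcases s with a | a
      · rw [hA', hA', hFl']
      · exact absurd (hPe' a) hi)
    rw [hcP, hcP'] at h8
    rw [hcP', hcPP'] at h9
    have h10 : 2 * G.edgeSet.ncard ≤ A.card * (2 * m + m') + A'.card * (2 * m' + m) := by
      linarith
    have h11 : 2 * (G.edgeSet.ncard : ℝ) ≤ A.card * (2 * m + m') + A'.card * (2 * m' + m) := by
      exact_mod_cast h10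
    have h12 : (A.card : ℝ) ≤ 2 ^ n / k := by
      rw [le_div_iff₀ (by exact_mod_cast hk)]
      have : (((k * A.card : ℕ)) : ℝ) ≤ ((2 ^ n : ℕ) : ℝ) := by exact_mod_cast hc
      push_cast at this
      linarith
    have h13 : (A'.card : ℝ) ≤ 2 ^ n / k' := by
      rw [le_div_iff₀ (by exact_mod_cast hk')]
      have : (((k' * A'.card : ℕ)) : ℝ) ≤ ((2 ^ n : ℕ) : ℝ) := by exact_mod_cast hc'
      push_cast at this
      linarith
    calc 2 * (G.edgeSet.ncard : ℝ) ≤ A.card * (2 * m + m') + A'.card * (2 * m' + m) := h11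
      _ ≤ 2 ^ n / k * (2 * m + m') + 2 ^ n / k' * (2 * m' + m) := by gcongr
      _ = 2 ^ n * ((2 * m + m') / k + (2 * m' + m) / k') := by ring

/-- `s-sat(Q_n, Q_2) ≤ (3 + o(1)) 2 ^ n` for all `n`. -/
lemma sSat_upper {ε : ℝ} (hε : 0 < ε) :
    ∃ n₀ : ℕ, ∀ n ≥ n₀, (sSat n : ℝ) ≤ (3 + ε) * 2 ^ n := by
  -- parameters
  obtain ⟨δ, hδ0, hδ1⟩ : ∃ δ : ℝ, 0 < δ ∧ (3 + δ) * (1 + δ) ≤ 3 + ε := by
    refine ⟨min 1 (ε / 5), by positivity, ?_⟩
    have h1 : min 1 (ε / 5) ≤ 1 := min_le_left _ _
    have h2 : min 1 (ε / 5) ≤ ε / 5 := min_le_right _ _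
    have h3 : 0 < min 1 (ε / 5) := by positivity
    nlinarith
  obtain ⟨n₁, hn₁⟩ := asymp hδ0
  obtain ⟨n₂, hn₂⟩ := exists_nat_ge (1 / δ)
  refine ⟨2 * (n₁ + n₂) + 2, fun n hn => ?_⟩
  obtain ⟨k, hk, hDk, hk'⟩ := hn₁ (n / 2) (by omega)
  obtain ⟨l, hl, hDl, hl'⟩ := hn₁ (n - n / 2) (by omega)
  set m := n / 2 with hm
  set m' := n - n / 2 with hm'
  obtain ⟨G, hG, hcard⟩ := construct hk hl hDk hDl
  have hmm : m + m' = n := by omega
  have h0 : sSat (m + m') ≤ G.edgeSet.ncard := Nat.sInf_le ⟨G, hG, rfl⟩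
  have h0' : (sSat n : ℝ) ≤ G.edgeSet.ncard := by
    rw [← hmm]
    exact_mod_cast h0
  set E : ℝ := (G.edgeSet.ncard : ℝ) with hE
  rw [hmm] at hcard
  -- real estimates
  have hm1 : 1 / δ ≤ m := hn₂.trans (by exact_mod_cast (by omega : n₂ ≤ m))
  have hm1' : 1 ≤ δ * m := by
    rw [div_le_iff₀ hδ0] at hm1
    linarith
  have hk0 : (0 : ℝ) < k := by exact_mod_cast hk
  have hl0 : (0 : ℝ) < l := by exact_mod_cast hl
  have hmpos : (0 : ℝ) < m := by
    have : 0 < m := by omega
    exact_mod_cast this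
  have h1 : (m' : ℝ) ≤ m + 1 := by exact_mod_cast (by omega : m' ≤ m + 1)
  have h2 : (m : ℝ) ≤ m' := by exact_mod_cast (by omega : m ≤ m')
  have h3 : (2 * (m : ℝ) + m') / k ≤ (1 + δ) * (3 + δ) := by
    rw [div_le_iff₀ hk0]
    calc 2 * (m : ℝ) + m' ≤ (3 + δ) * m := by nlinarith
      _ ≤ (3 + δ) * ((1 + δ) * k) := by gcongr
      _ = _ := by ring
  have h4 : (2 * (m' : ℝ) + m) / l ≤ (1 + δ) * (3 + δ) := by
    rw [div_le_iff₀ hl0]
    calc 2 * (m' : ℝ) + m ≤ (3 + δ) * m' := by nlinarith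
      _ ≤ (3 + δ) * ((1 + δ) * l) := by gcongr
      _ = _ := by ring
  have h5 : (0 : ℝ) < 2 ^ n := by positivity
  have h6 : 2 * E ≤ 2 * ((3 + ε) * 2 ^ n) := by
    calc 2 * E ≤ 2 ^ n * ((2 * m + m') / k + (2 * m' + m) / l) := hcard
      _ ≤ 2 ^ n * ((1 + δ) * (3 + δ) + (1 + δ) * (3 + δ)) := by gcongr
      _ = 2 * (((3 + δ) * (1 + δ)) * 2 ^ n) := by ring
      _ ≤ 2 * ((3 + ε) * 2 ^ n) := by gcongr
  linarith

/-- `s-sat(Q_n, Q_2) / 2 ^ n` tends to `3`; `sat(Q_n, Q_2) ≥ 3.1 * 2 ^ n` for all large `n`; so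
`limsup s-sat(Q_n, Q_2) / 2 ^ n < liminf sat(Q_n, Q_2) / 2 ^ n` (upper and lower limits in
`[-∞, ∞]`). -/
theorem result :
    Tendsto (fun n : ℕ => (sSat n : ℝ) / 2 ^ n) atTop (𝓝 3) ∧
    (∀ᶠ n : ℕ in atTop, (31 / 10 : ℝ) ≤ (satNum n : ℝ) / 2 ^ n) ∧
    limsup (fun n : ℕ => (((sSat n : ℝ) / 2 ^ n : ℝ) : EReal)) atTop <
      liminf (fun n : ℕ => (((satNum n : ℝ) / 2 ^ n : ℝ) : EReal)) atTop := by
  have h1 : Tendsto (fun n : ℕ => (sSat n : ℝ) / 2 ^ n) atTop (𝓝 3) := by
    rw [Metric.tendsto_atTop]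
    intro ε hε
    obtain ⟨a, ha⟩ := sSat_upper (half_pos hε)
    obtain ⟨b, hb⟩ := SemiSatThree.result.1 (ε / 2) (half_pos hε)
    refine ⟨max a b, fun n hn => ?_⟩
    have h2 := ha n (le_trans (le_max_left _ _) hn)
    have h3 := hb n (le_trans (le_max_right _ _) hn)
    rw [← sSat_eq'] at h3
    have h4 : (0 : ℝ) < 2 ^ n := by positivity
    rw [Real.dist_eq, abs_lt]
    constructor
    · have h5 : 3 - ε / 2 ≤ (sSat n : ℝ) / 2 ^ n := by rw [le_div_iff₀ h4]; exact h3
      linarith
    · have h5 : (sSat n : ℝ) / 2 ^ n ≤ 3 + ε / 2 := by rw [div_le_iff₀ h4]; exact h2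
      linarith
  have h2 : ∀ᶠ n : ℕ in atTop, (31 / 10 : ℝ) ≤ (satNum n : ℝ) / 2 ^ n := by
    filter_upwards [eventually_ge_atTop (10 ^ 16)] with n hn
    rw [le_div_iff₀ (by positivity)]
    exact Separation.result.1 n hn
  refine ⟨h1, h2, ?_⟩
  have h3 : limsup (fun n : ℕ => (((sSat n : ℝ) / 2 ^ n : ℝ) : EReal)) atTop = ((3 : ℝ) : EReal) :=
    ((continuous_coe_real_ereal.tendsto _).comp h1).limsup_eq
  rw [h3]
  refine lt_of_lt_of_le (b := ((31 / 10 : ℝ) : EReal)) ?_ ?_
  · rw [EReal.coe_lt_coe_iff]; norm_num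
  · apply le_liminf_of_le
    · isBoundedDefault
    · filter_upwards [h2] with n hn
      exact_mod_cast hn

end Pool.Agent.Results.MP_71830d_co.LimitAndSeparation
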